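import Mathlib
import Pool.Agent.H21.LevyDef

namespace Pool.Agent.Results.MP_3ddb5a_an.BigArea

open Pool.Agent.H21.Levy MeasureTheory Complex

noncomputable def u (ε : ℝ) (z : ℂ) : ℝ := -(z.re ^ 2 / 2) - ε * z.im ^ 2

theorem du (ε : ℝ) : fderiv ℝ (u ε) = fun z => (-z.re) • reCLM + (-2 * ε * z.im) • imCLM := by
  funext z
  have h1 : HasFDerivAt (fun z : ℂ => z.re) reCLM z := reCLM.hasFDerivAt
  have h2 : HasFDerivAt (fun z : ℂ => z.im) imCLM z := imCLM.hasFDerivAt
  have h := ((h1.pow 2).mul_const (1 / 2)).neg.sub ((h2.pow 2).const_mul ε)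
  have e : u ε = fun z : ℂ => -(z.re ^ 2 * (1 / 2)) - ε * z.im ^ 2 := by
    funext z; simp only [u]; ring
  rw [e]
  refine h.fderiv.trans ?_
  ext <;> simp <;> ring

theorem lap (ε : ℝ) (z : ℂ) : Laplacian.laplacian (u ε) z = -1 - 2 * ε := by
  have h1 : HasFDerivAt (fun z : ℂ => z.re) reCLM z := reCLM.hasFDerivAt
  have h2 : HasFDerivAt (fun z : ℂ => z.im) imCLM z := imCLM.hasFDerivAt
  have h := (h1.neg.smul_const reCLM).add ((h2.const_mul (-2 * ε)).smul_const imCLM)
  rw [InnerProductSpace.laplacian_eq_iteratedFDeriv_complexPlane]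
  simp only [iteratedFDeriv_two_apply, du]
  erw [h.fderiv]
  simp; ring

theorem result (A : ℝ) (hA : 0 < A) : ∃ u : ℂ → ℝ, ContDiff ℝ 2 u ∧
    (∀ z, Laplacian.laplacian u z + Real.exp (2 * u z) ≤ 0) ∧
    area u Set.univ = ENNReal.ofReal A := by
  have hp := Real.pi_pos
  set ε := Real.pi ^ 2 / (2 * A ^ 2) with hε
  have e0 : 0 < ε := by positivity
  have key : area (u ε) Set.univ = ENNReal.ofReal A := by
    have i1 := integrable_exp_neg_mul_sq one_pos
    have i2 := integrable_exp_neg_mul_sq (b := 2 * ε) (by positivity)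
    have : A = (∫ x : ℝ, Real.exp (-1 * x ^ 2)) * ∫ x : ℝ, Real.exp (-(2 * ε) * x ^ 2) := by
      rw [integral_gaussian, integral_gaussian, ← Real.sqrt_mul (by positivity), hε,
        show Real.pi / 1 * (Real.pi / (2 * (Real.pi ^ 2 / (2 * A ^ 2)))) = A ^ 2 by field_simp,
        Real.sqrt_sq hA.le]
    rw [area, Measure.restrict_univ, this, ← integral_prod_mul,
      ofReal_integral_eq_lintegral_ofReal (i1.mul_prod i2) (.of_forall fun _ => by positivity),
      ← Measure.volume_eq_prod, ← volume_preserving_equiv_real_prod.lintegral_comp_emb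
        measurableEquivRealProd.measurableEmbedding]
    refine lintegral_congr fun z => ?_
    rw [← Real.exp_add]; congr 2; simp [u]; ring
  refine ⟨u ε, ?_, fun z => ?_, key⟩
  · have h1 : ContDiff ℝ 2 fun z : ℂ => z.re := reCLM.contDiff
    have h2 : ContDiff ℝ 2 fun z : ℂ => z.im := imCLM.contDiff
    unfold u; fun_prop
  · have : Real.exp (2 * u ε z) ≤ 1 := Real.exp_le_one_iff.2 (by
      unfold u; nlinarith [mul_nonneg e0.le (sq_nonneg z.im)])
    rw [lap]; linarith

end Pool.Agent.Results.MP_3ddb5a_an.BigArea
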